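import Pool.Agent.H31.Coh

open Pool.Agent.H31.Tuk Pool.Agent.H31.Coh

universe u v

theorem Pool.Agent.Results.MP_95a664_lc.Neg.result :
    ∃ (S : Type) (I : Set (Set S)), IsIdeal I ∧ ⋃₀ I = Set.univ ∧ Set.univ ∉ I ∧
      ∀ (P : Type u) [PartialOrder P],
        ¬ ∀ (Q : Type v) [PartialOrder Q] [Nonempty Q] [IsDirected Q (· ≤ ·)],
          TukeyLE P Q ↔ Cohesive I Q :=
  ⟨_, II, ideal_II, space_II, univ_II, fun P _ => main P⟩
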